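import Mathlib

/-!
# The local table of Staller's potential

The gadget has the vertices `0, ..., 10` and the edges
`01, 12, 03, 34, 05, 56, 07, 78, 79, 9 10`. A set of played vertices of the gadget is coded by the
number `x < 2048` whose binary digits mark the played vertices.
-/

namespace Pool.Agent.R193.LG

/-- `v` is played -/
def pl (x v : ℕ) : Bool := x.testBit v

/-- the vertex `v` (`1 ≤ v ≤ 10`) may be played in the state `x` of the gadget -/
def loc (x v : ℕ) : Bool :=
  !(pl x v) && match v with
  | 1 => true
  | 3 => true
  | 5 => true
  | 7 => true
  | 9 => true
  | 2 => !(pl x 1) || !(pl x 0)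
  | 4 => !(pl x 3) || !(pl x 0)
  | 6 => !(pl x 5) || !(pl x 0)
  | 8 => !(pl x 7) || (!(pl x 0) && !(pl x 9))
  | 10 => !(pl x 9) || !(pl x 7)
  | _ => false

/-- play `v` -/
def put (x v : ℕ) : ℕ := x ||| (1 <<< v)

/-- the table of the potential, four bits per state -/
def tab : ℕ := 0x20222120202221222224332121232220202221202022212222243321212322222224332222243324343655432325443121232221212322232325443222243320202221202022212222243321212322202022212020222122222433212123222222243322222433243436554323254431212322212123222323254432222433224244434242444344444655434345444242444342424443444446554343454444444655444446554656587765454766534345444343454445454766544446554131333231313332333335443232343331313332313133323333354432323433333335443333354435454766543436554232343332323433343436554333354430202221202022212222243321212322202022212020222122222433212123222222243322222433243436554323254431212322212123222323254432222433202022212020222122222433212123222020222120202221222224332121232222222433222224332434365543232544312123222121232223232544322224332232343332323433343436554333354432323433323234333434365543333544343436554434365546565877654547665333354433333544354547665434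36554121232221212322232325443222243321212322212123222323254432222433232325443323254435454766543436554222243322222433243436554323254432424443424244434444465543434544424244434242444344444655434345444444465544444655465658776545476653434544434345444545476654444655413133323131333233333544323234333131333231313332333335443232343333333544333335443545476654343655423234333232343334343655433335443464666564646665666668776565676664646665646466656666687765656766666668776666687768787a99876769887565676665656766676769887666687763535554535355545555576654545655535355545353555455555766545456555555576655555766576769786656586764545655545456555656586765555766513133323131333233333544323234333131333231313332333335443232343333333544333335443545476654343655423234333232343334343655433335443020222120202221222224332121232220202221202022212222243321212322222224332222243324343655432325443121232221212322232325443222243323535554535355545555576654545655535355545353555455555766545456555555576655555766576769887656587764545655545456555656587765555766523234333232343334343645333335343232343332323433343436453333353434343645343436453646486755353756433335343333353435353756443436453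

/-- the potential of the state `x` -/
def tau (x : ℕ) : ℕ := (tab >>> (4 * x)) &&& 15

/-- the vertices other than the centre -/
def outer : List ℕ := [1, 2, 3, 4, 5, 6, 7, 8, 9, 10]

/-- Staller has a reply in `y` to a state of potential at most `t` -/
def reply (y t : ℕ) : Bool := outer.any fun w => loc y w && Nat.ble (tau (put y w)) t

/-- number of unplayed vertices -/
def unpl (x : ℕ) : ℕ :=
  (!(pl x 0)).toNat + (!(pl x 1)).toNat + (!(pl x 2)).toNat + (!(pl x 3)).toNat +
  (!(pl x 4)).toNat + (!(pl x 5)).toNat + (!(pl x 6)).toNat + (!(pl x 7)).toNat +
  (!(pl x 8)).toNat + (!(pl x 9)).toNat + (!(pl x 10)).toNat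

/-- condition after the move `v` of Dominator in the state `x` -/
def okB (x v : ℕ) : Bool := reply (put x v) (tau x) || Nat.ble (tau (put x v)) (tau x + 1)

/-- all conditions for the state `x` -/
def ok (x : ℕ) : Bool :=
  (outer.all fun v => !(loc x v) || okB x v) && (pl x 0 || okB x 0) &&
  (Nat.beq (tau x % 2) 0 || reply x (tau x - 1)) &&
  (!(outer.any fun v => loc x v) || reply x (tau x)) &&
  ((outer.any fun v => loc x v) || Nat.ble (2 * unpl x) (tau x))

/-- check for a range of states -/
def okRange (a n : ℕ) : Bool := (List.range n).all fun i => ok (a + i)

set_option maxRecDepth 100000 in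
theorem chk0 : okRange 0 128 = true := by decide +kernel

set_option maxRecDepth 100000 in
theorem chk1 : okRange 128 128 = true := by decide +kernel

set_option maxRecDepth 100000 in
theorem chk2 : okRange 256 128 = true := by decide +kernel

set_option maxRecDepth 100000 in
theorem chk3 : okRange 384 128 = true := by decide +kernel

set_option maxRecDepth 100000 in
theorem chk4 : okRange 512 128 = true := by decide +kernel

set_option maxRecDepth 100000 in
theorem chk5 : okRange 640 128 = true := by decide +kernel

set_option maxRecDepth 100000 in
theorem chk6 : okRange 768 128 = true := by decide +kernel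

set_option maxRecDepth 100000 in
theorem chk7 : okRange 896 128 = true := by decide +kernel

set_option maxRecDepth 100000 in
theorem chk8 : okRange 1024 128 = true := by decide +kernel

set_option maxRecDepth 100000 in
theorem chk9 : okRange 1152 128 = true := by decide +kernel

set_option maxRecDepth 100000 in
theorem chk10 : okRange 1280 128 = true := by decide +kernel

set_option maxRecDepth 100000 in
theorem chk11 : okRange 1408 128 = true := by decide +kernel

set_option maxRecDepth 100000 in
theorem chk12 : okRange 1536 128 = true := by decide +kernel

set_option maxRecDepth 100000 in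
theorem chk13 : okRange 1664 128 = true := by decide +kernel

set_option maxRecDepth 100000 in
theorem chk14 : okRange 1792 128 = true := by decide +kernel

set_option maxRecDepth 100000 in
theorem chk15 : okRange 1920 128 = true := by decide +kernel

theorem ok_all (x : ℕ) (hx : x < 2048) : ok x = true := by
  have key : ∀ a, okRange (128 * a) 128 = true → x / 128 = a → ok x = true := by
    intro a ha hxa
    have h1 := List.all_eq_true.mp ha (x % 128) (List.mem_range.mpr (Nat.mod_lt _ (by norm_num)))
    have h2 : 128 * a + x % 128 = x := by rw [← hxa]; exact Nat.div_add_mod x 128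
    simpa [h2] using h1
  have h3 : x / 128 < 16 := by omega
  interval_cases h : x / 128
  · exact key 0 chk0 rfl
  · exact key 1 chk1 rfl
  · exact key 2 chk2 rfl
  · exact key 3 chk3 rfl
  · exact key 4 chk4 rfl
  · exact key 5 chk5 rfl
  · exact key 6 chk6 rfl
  · exact key 7 chk7 rfl
  · exact key 8 chk8 rfl
  · exact key 9 chk9 rfl
  · exact key 10 chk10 rfl
  · exact key 11 chk11 rfl
  · exact key 12 chk12 rfl
  · exact key 13 chk13 rfl
  · exact key 14 chk14 rfl
  · exact key 15 chk15 rfl


theorem reply_iff (y t : ℕ) :
    reply y t = true ↔ ∃ w ∈ outer, loc y w = true ∧ tau (put y w) ≤ t := by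
  simp [reply, List.any_eq_true]

theorem any_iff (x : ℕ) : (outer.any fun v => loc x v) = true ↔ ∃ v ∈ outer, loc x v = true := by
  simp [List.any_eq_true]

theorem ok_dom (x v : ℕ) (hx : x < 2048) (hv : (v ∈ outer ∧ loc x v = true) ∨ (v = 0 ∧ pl x 0 = false)) :
    (∃ w ∈ outer, loc (put x v) w = true ∧ tau (put (put x v) w) ≤ tau x) ∨
      tau (put x v) ≤ tau x + 1 := by
  have h := ok_all x hx
  rw [ok] at h
  simp only [Bool.and_eq_true] at h
  obtain ⟨⟨⟨⟨h1, h2⟩, -⟩, -⟩, -⟩ := h
  have h3 : okB x v = true := by
    rcases hv with ⟨hv, hl⟩ | ⟨rfl, hl⟩
    · have := List.all_eq_true.mp h1 v hv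
      simpa [hl] using this
    · simpa [hl] using h2
  rw [okB, Bool.or_eq_true, reply_iff] at h3
  rcases h3 with h3 | h3
  · exact Or.inl h3
  · exact Or.inr (Nat.le_of_ble_eq_true h3)

theorem ok_odd (x : ℕ) (hx : x < 2048) (ho : tau x % 2 = 1) :
    ∃ w ∈ outer, loc x w = true ∧ tau (put x w) ≤ tau x - 1 := by
  have h := ok_all x hx
  rw [ok] at h
  simp only [Bool.and_eq_true] at h
  obtain ⟨⟨⟨-, h3⟩, -⟩, -⟩ := h
  rw [Bool.or_eq_true, reply_iff] at h3
  rcases h3 with h3 | h3
  · have := Nat.eq_of_beq_eq_true h3
    omega
  · exact h3

theorem ok_neutral (x : ℕ) (hx : x < 2048) (hne : ∃ v ∈ outer, loc x v = true) :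
    ∃ w ∈ outer, loc x w = true ∧ tau (put x w) ≤ tau x := by
  have h := ok_all x hx
  rw [ok] at h
  simp only [Bool.and_eq_true] at h
  obtain ⟨⟨-, h4⟩, -⟩ := h
  rw [Bool.or_eq_true, reply_iff] at h4
  rcases h4 with h4 | h4
  · rw [(any_iff x).mpr hne] at h4
    exact absurd h4 (by simp)
  · exact h4

theorem ok_end (x : ℕ) (hx : x < 2048) (hne : ¬ ∃ v ∈ outer, loc x v = true) :
    2 * unpl x ≤ tau x := by
  have h := ok_all x hx
  rw [ok] at h
  simp only [Bool.and_eq_true] at h
  obtain ⟨-, h5⟩ := h
  rw [Bool.or_eq_true, any_iff] at h5
  rcases h5 with h5 | h5
  · exact absurd h5 hne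
  · exact Nat.le_of_ble_eq_true h5

theorem tau_zero : tau 0 = 3 := by decide

end Pool.Agent.R193.LG
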