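import Pool.Agent.R193.LG.Game
import Pool.Agent.R193.LG.Table

/-!
# Gluing gadgets to the vertices of a graph
-/

namespace Pool.Agent.R193.LG

/-- the gadget: a tree with 11 vertices and centre `0` -/
def gadget : SimpleGraph (Fin 11) :=
  SimpleGraph.fromRel fun u v => (u.1, v.1) ∈
    [(0, 1), (1, 2), (0, 3), (3, 4), (0, 5), (5, 6), (0, 7), (7, 8), (7, 9), (9, 10)]

instance : DecidableRel gadget.Adj := fun a b => by
  unfold gadget
  rw [SimpleGraph.fromRel_adj]
  infer_instance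

/-- identify every vertex of `H` with the centre of its own copy of the gadget -/
def attach {ι : Type} (H : SimpleGraph ι) : SimpleGraph (ι × Fin 11) where
  Adj p q := (p.1 = q.1 ∧ gadget.Adj p.2 q.2) ∨ (H.Adj p.1 q.1 ∧ p.2 = 0 ∧ q.2 = 0)
  symm := ⟨by
    rintro p q (⟨h, h'⟩ | ⟨h, h', h''⟩)
    · exact Or.inl ⟨h.symm, h'.symm⟩
    · exact Or.inr ⟨h.symm, h'', h'⟩⟩
  loopless := ⟨by
    rintro p (⟨_, h'⟩ | ⟨h, _, _⟩)
    · exact gadget.irrefl h'
    · exact H.irrefl h⟩

variable {ι : Type} [DecidableEq ι] {H : SimpleGraph ι}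

theorem adj_outer {i j : ι} {u v : Fin 11} (hv : v ≠ 0) :
    (attach H).Adj (i, u) (j, v) ↔ i = j ∧ gadget.Adj u v := by
  constructor
  · rintro (h | ⟨_, _, h⟩)
    · exact h
    · exact absurd h hv
  · exact fun h => Or.inl h

theorem adj_outer' {i j : ι} {u v : Fin 11} (hu : u ≠ 0) :
    (attach H).Adj (i, u) (j, v) ↔ i = j ∧ gadget.Adj u v := by
  constructor
  · rintro (h | ⟨_, h, _⟩)
    · exact h
    · exact absurd h hu
  · exact fun h => Or.inl h

theorem adj_in {i : ι} {u v : Fin 11} (h : gadget.Adj u v) : (attach H).Adj (i, u) (i, v) :=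
  Or.inl ⟨rfl, h⟩

theorem dominated_outer {C : Finset (ι × Fin 11)} {i : ι} {v : Fin 11} (hv : v ≠ 0) :
    (i, v) ∈ dominated (attach H) C ↔ ∃ u, gadget.Adj u v ∧ (i, u) ∈ C := by
  constructor
  · rintro ⟨⟨j, u⟩, hu, hadj⟩
    rw [adj_outer hv] at hadj
    obtain ⟨rfl, hadj⟩ := hadj
    exact ⟨u, hadj, hu⟩
  · rintro ⟨u, hadj, hu⟩
    exact ⟨(i, u), hu, adj_in hadj⟩

theorem legal_outer {C : Finset (ι × Fin 11)} {i : ι} {v : Fin 11} (hv : v ≠ 0) :
    IsLegal (attach H) C (i, v) ↔ (i, v) ∉ C ∧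
      ∃ u, (u = v ∨ gadget.Adj v u) ∧ (i, u) ∉ dominated (attach H) C := by
  constructor
  · rintro ⟨h1, ⟨j, u⟩, h2, h3⟩
    refine ⟨h1, u, ?_, ?_⟩
    · rcases h2 with h2 | h2
      · exact Or.inl (Prod.ext_iff.mp h2).2
      · exact Or.inr ((adj_outer' hv).mp h2).2
    · have : j = i := by
        rcases h2 with h2 | h2
        · exact (Prod.ext_iff.mp h2).1
        · exact ((adj_outer' hv).mp h2).1.symm
      rw [this] at h3
      exact h3
  · rintro ⟨h1, u, h2, h3⟩
    refine ⟨h1, (i, u), ?_, h3⟩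
    rcases h2 with rfl | h2
    · exact Or.inl rfl
    · exact Or.inr (adj_in h2)

/-- a vertex with a leaf is legal as long as it is unplayed -/
theorem legal_support {C : Finset (ι × Fin 11)} {i : ι} {v l : Fin 11} (hv : v ≠ 0) (hl0 : l ≠ 0)
    (hadj : gadget.Adj v l) (hl : ∀ u, gadget.Adj u l → u = v) :
    IsLegal (attach H) C (i, v) ↔ (i, v) ∉ C := by
  rw [legal_outer hv]
  refine ⟨fun h => h.1, fun h => ⟨h, l, Or.inr hadj, ?_⟩⟩
  rw [dominated_outer hl0]
  rintro ⟨u, hu, huC⟩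
  rw [hl u hu] at huC
  exact h huC

/-- legality of a leaf -/
theorem legal_leaf {C : Finset (ι × Fin 11)} {i : ι} {s l : Fin 11} (hs : s ≠ 0) (hl0 : l ≠ 0)
    (hadj : gadget.Adj s l) (hl : ∀ u, gadget.Adj u l → u = s) :
    IsLegal (attach H) C (i, l) ↔ (i, l) ∉ C ∧
      ((i, s) ∉ C ∨ ∀ u, gadget.Adj u s → (i, u) ∉ C) := by
  rw [legal_outer hl0]
  refine and_congr_right fun h => ?_
  constructor
  · rintro ⟨u, hu, hd⟩
    rcases hu with rfl | hu
    · left
      rw [dominated_outer hl0] at hd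
      exact fun hC => hd ⟨s, hadj, hC⟩
    · right
      have : u = s := hl u hu.symm
      subst this
      rw [dominated_outer hs] at hd
      exact fun w hw hC => hd ⟨w, hw, hC⟩
  · rintro (h' | h')
    · refine ⟨l, Or.inl rfl, ?_⟩
      rw [dominated_outer hl0]
      rintro ⟨u, hu, huC⟩
      rw [hl u hu] at huC
      exact h' huC
    · refine ⟨s, Or.inr hadj.symm, ?_⟩
      rw [dominated_outer hs]
      rintro ⟨u, hu, huC⟩
      exact h' u hu huC

/-- the code of the set of the played vertices of the copy `i` -/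
noncomputable def mask (C : Finset (ι × Fin 11)) (i : ι) : ℕ :=
  Nat.ofBits fun u : Fin 11 => decide ((i, u) ∈ C)

theorem mask_lt (C : Finset (ι × Fin 11)) (i : ι) : mask C i < 2048 :=
  Nat.ofBits_lt_two_pow _

theorem pl_mask (C : Finset (ι × Fin 11)) (i : ι) (u : Fin 11) :
    pl (mask C i) u = decide ((i, u) ∈ C) := by
  rw [pl, mask, Nat.testBit_ofBits_lt _ _ u.2]

theorem mask_insert_self (C : Finset (ι × Fin 11)) (i : ι) (u : Fin 11) :
    mask (insert (i, u) C) i = put (mask C i) u := by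
  apply Nat.eq_of_testBit_eq
  intro k
  rw [put, Nat.testBit_or]
  by_cases hk : k < 11
  · have h1 := pl_mask (insert (i, u) C) i ⟨k, hk⟩
    have h2 := pl_mask C i ⟨k, hk⟩
    simp only [pl] at h1 h2
    rw [h1, h2]
    by_cases huk : (⟨k, hk⟩ : Fin 11) = u
    · subst huk
      simp [Nat.testBit_shiftLeft]
    · have h3 : (u : ℕ) ≠ k := fun h => huk (Fin.ext h.symm)
      have h4 : (1 <<< (u : ℕ)).testBit k = false := by
        rw [Nat.one_shiftLeft, Nat.testBit_two_pow]
        simpa using h3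
      rw [h4, Bool.or_false]
      simp [Finset.mem_insert, Prod.ext_iff, huk]
  · have hk' : 11 ≤ k := by omega
    have h4 : (1 <<< (u : ℕ)).testBit k = false := by
      rw [Nat.one_shiftLeft, Nat.testBit_two_pow]
      have := u.2
      simp
      omega
    rw [h4, mask, mask, Nat.testBit_ofBits_ge _ _ hk', Nat.testBit_ofBits_ge _ _ hk']
    rfl

theorem mask_insert_ne (C : Finset (ι × Fin 11)) {i j : ι} (hij : j ≠ i) (u : Fin 11) :
    mask (insert (i, u) C) j = mask C j := by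
  have : ∀ v : Fin 11, ((j, v) ∈ insert (i, u) C) ↔ ((j, v) ∈ C) := by
    intro v
    simp [Finset.mem_insert, Prod.ext_iff, hij]
  simp only [mask, this]

section cases

variable (C : Finset (ι × Fin 11)) (i : ι)

theorem adj1 : ∀ u, gadget.Adj u 1 ↔ u = 0 ∨ u = 2 := by decide
theorem adj3 : ∀ u, gadget.Adj u 3 ↔ u = 0 ∨ u = 4 := by decide
theorem adj5 : ∀ u, gadget.Adj u 5 ↔ u = 0 ∨ u = 6 := by decide
theorem adj7 : ∀ u, gadget.Adj u 7 ↔ u = 0 ∨ u = 8 ∨ u = 9 := by decide
theorem adj9 : ∀ u, gadget.Adj u 9 ↔ u = 7 ∨ u = 10 := by decide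
theorem adj2 : ∀ u, gadget.Adj u 2 ↔ u = 1 := by decide
theorem adj4 : ∀ u, gadget.Adj u 4 ↔ u = 3 := by decide
theorem adj6 : ∀ u, gadget.Adj u 6 ↔ u = 5 := by decide
theorem adj8 : ∀ u, gadget.Adj u 8 ↔ u = 7 := by decide
theorem adj10 : ∀ u, gadget.Adj u 10 ↔ u = 9 := by decide

theorem P0 : pl (mask C i) 0 = decide ((i, 0) ∈ C) := pl_mask C i 0
theorem P1 : pl (mask C i) 1 = decide ((i, 1) ∈ C) := pl_mask C i 1
theorem P2 : pl (mask C i) 2 = decide ((i, 2) ∈ C) := pl_mask C i 2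
theorem P3 : pl (mask C i) 3 = decide ((i, 3) ∈ C) := pl_mask C i 3
theorem P4 : pl (mask C i) 4 = decide ((i, 4) ∈ C) := pl_mask C i 4
theorem P5 : pl (mask C i) 5 = decide ((i, 5) ∈ C) := pl_mask C i 5
theorem P6 : pl (mask C i) 6 = decide ((i, 6) ∈ C) := pl_mask C i 6
theorem P7 : pl (mask C i) 7 = decide ((i, 7) ∈ C) := pl_mask C i 7
theorem P8 : pl (mask C i) 8 = decide ((i, 8) ∈ C) := pl_mask C i 8
theorem P9 : pl (mask C i) 9 = decide ((i, 9) ∈ C) := pl_mask C i 9
theorem P10 : pl (mask C i) 10 = decide ((i, 10) ∈ C) := pl_mask C i 10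

theorem L1 : IsLegal (attach H) C (i, 1) ↔ loc (mask C i) 1 = true := by
  rw [legal_support (l := 2) (by decide) (by decide) ((adj2 1).mpr rfl) fun u => (adj2 u).mp,
    loc, P1]
  simp
theorem L3 : IsLegal (attach H) C (i, 3) ↔ loc (mask C i) 3 = true := by
  rw [legal_support (l := 4) (by decide) (by decide) ((adj4 3).mpr rfl) fun u => (adj4 u).mp,
    loc, P3]
  simp
theorem L5 : IsLegal (attach H) C (i, 5) ↔ loc (mask C i) 5 = true := by
  rw [legal_support (l := 6) (by decide) (by decide) ((adj6 5).mpr rfl) fun u => (adj6 u).mp,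
    loc, P5]
  simp
theorem L7 : IsLegal (attach H) C (i, 7) ↔ loc (mask C i) 7 = true := by
  rw [legal_support (l := 8) (by decide) (by decide) ((adj8 7).mpr rfl) fun u => (adj8 u).mp,
    loc, P7]
  simp
theorem L9 : IsLegal (attach H) C (i, 9) ↔ loc (mask C i) 9 = true := by
  rw [legal_support (l := 10) (by decide) (by decide) ((adj10 9).mpr rfl) fun u => (adj10 u).mp,
    loc, P9]
  simp

theorem L2 : IsLegal (attach H) C (i, 2) ↔ loc (mask C i) 2 = true := by
  rw [legal_leaf (s := 1) (by decide) (by decide) ((adj2 1).mpr rfl) fun u => (adj2 u).mp,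
    loc, P2, P1, P0]
  have h : (∀ u, gadget.Adj u 1 → (i, u) ∉ C) ↔ (i, 0) ∉ C ∧ (i, 2) ∉ C := by
    simp only [adj1]
    constructor
    · exact fun h => ⟨h 0 (Or.inl rfl), h 2 (Or.inr rfl)⟩
    · rintro ⟨h0, h2⟩ u (rfl | rfl)
      · exact h0
      · exact h2
  rw [h]
  by_cases h0 : (i, 0) ∈ C <;> by_cases h1 : (i, 1) ∈ C <;> by_cases h2 : (i, 2) ∈ C <;>
    simp [h0, h1, h2]

theorem L4 : IsLegal (attach H) C (i, 4) ↔ loc (mask C i) 4 = true := by
  rw [legal_leaf (s := 3) (by decide) (by decide) ((adj4 3).mpr rfl) fun u => (adj4 u).mp,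
    loc, P4, P3, P0]
  have h : (∀ u, gadget.Adj u 3 → (i, u) ∉ C) ↔ (i, 0) ∉ C ∧ (i, 4) ∉ C := by
    simp only [adj3]
    constructor
    · exact fun h => ⟨h 0 (Or.inl rfl), h 4 (Or.inr rfl)⟩
    · rintro ⟨h0, h2⟩ u (rfl | rfl)
      · exact h0
      · exact h2
  rw [h]
  by_cases h0 : (i, 0) ∈ C <;> by_cases h1 : (i, 3) ∈ C <;> by_cases h2 : (i, 4) ∈ C <;>
    simp [h0, h1, h2]

theorem L6 : IsLegal (attach H) C (i, 6) ↔ loc (mask C i) 6 = true := by
  rw [legal_leaf (s := 5) (by decide) (by decide) ((adj6 5).mpr rfl) fun u => (adj6 u).mp,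
    loc, P6, P5, P0]
  have h : (∀ u, gadget.Adj u 5 → (i, u) ∉ C) ↔ (i, 0) ∉ C ∧ (i, 6) ∉ C := by
    simp only [adj5]
    constructor
    · exact fun h => ⟨h 0 (Or.inl rfl), h 6 (Or.inr rfl)⟩
    · rintro ⟨h0, h2⟩ u (rfl | rfl)
      · exact h0
      · exact h2
  rw [h]
  by_cases h0 : (i, 0) ∈ C <;> by_cases h1 : (i, 5) ∈ C <;> by_cases h2 : (i, 6) ∈ C <;>
    simp [h0, h1, h2]

theorem L10 : IsLegal (attach H) C (i, 10) ↔ loc (mask C i) 10 = true := by
  rw [legal_leaf (s := 9) (by decide) (by decide) ((adj10 9).mpr rfl) fun u => (adj10 u).mp,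
    loc, P10, P9, P7]
  have h : (∀ u, gadget.Adj u 9 → (i, u) ∉ C) ↔ (i, 7) ∉ C ∧ (i, 10) ∉ C := by
    simp only [adj9]
    constructor
    · exact fun h => ⟨h 7 (Or.inl rfl), h 10 (Or.inr rfl)⟩
    · rintro ⟨h0, h2⟩ u (rfl | rfl)
      · exact h0
      · exact h2
  rw [h]
  by_cases h0 : (i, 7) ∈ C <;> by_cases h1 : (i, 9) ∈ C <;> by_cases h2 : (i, 10) ∈ C <;>
    simp [h0, h1, h2]

theorem L8 : IsLegal (attach H) C (i, 8) ↔ loc (mask C i) 8 = true := by
  rw [legal_leaf (s := 7) (by decide) (by decide) ((adj8 7).mpr rfl) fun u => (adj8 u).mp,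
    loc, P8, P7, P0, P9]
  have h : (∀ u, gadget.Adj u 7 → (i, u) ∉ C) ↔ (i, 0) ∉ C ∧ (i, 8) ∉ C ∧ (i, 9) ∉ C := by
    simp only [adj7]
    constructor
    · exact fun h => ⟨h 0 (Or.inl rfl), h 8 (Or.inr (Or.inl rfl)), h 9 (Or.inr (Or.inr rfl))⟩
    · rintro ⟨h0, h2, h3⟩ u (rfl | rfl | rfl)
      · exact h0
      · exact h2
      · exact h3
  rw [h]
  by_cases h0 : (i, 0) ∈ C <;> by_cases h1 : (i, 7) ∈ C <;> by_cases h2 : (i, 8) ∈ C <;>
    by_cases h3 : (i, 9) ∈ C <;> simp [h0, h1, h2, h3]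

end cases

theorem fin_cases11 : ∀ v : Fin 11, v ≠ 0 → v = 1 ∨ v = 2 ∨ v = 3 ∨ v = 4 ∨ v = 5 ∨ v = 6 ∨
    v = 7 ∨ v = 8 ∨ v = 9 ∨ v = 10 := by decide

theorem legal_iff_loc (C : Finset (ι × Fin 11)) (i : ι) (v : Fin 11) (hv : v ≠ 0) :
    IsLegal (attach H) C (i, v) ↔ loc (mask C i) v = true := by
  rcases fin_cases11 v hv with rfl | rfl | rfl | rfl | rfl | rfl | rfl | rfl | rfl | rfl
  · exact L1 C i
  · exact L2 C i
  · exact L3 C i
  · exact L4 C i
  · exact L5 C i
  · exact L6 C i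
  · exact L7 C i
  · exact L8 C i
  · exact L9 C i
  · exact L10 C i

/-- an outer neighbour of every vertex of the gadget -/
def nb : Fin 11 → Fin 11 := ![1, 2, 1, 4, 3, 6, 5, 8, 7, 10, 9]

theorem nb_adj : ∀ u, gadget.Adj (nb u) u := by decide

theorem nb_ne : ∀ u, nb u ≠ 0 := by decide

theorem exists_outer_legal [Fintype ι] {C : Finset (ι × Fin 11)} (h : (legal (attach H) C).Nonempty) :
    ∃ i v, v ≠ 0 ∧ IsLegal (attach H) C (i, v) := by
  obtain ⟨v, hv⟩ := h
  obtain ⟨_, ⟨j, u⟩, _, hw⟩ := mem_legal.mp hv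
  refine ⟨j, nb u, nb_ne u, ?_, (j, u), Or.inr (adj_in (nb_adj u)), hw⟩
  intro hC
  exact hw ⟨(j, nb u), hC, adj_in (nb_adj u)⟩

theorem mem_outer_iff (w : ℕ) : w ∈ outer ↔ ∃ v : Fin 11, v ≠ 0 ∧ (v : ℕ) = w := by
  constructor
  · intro h
    simp only [outer, List.mem_cons, List.not_mem_nil, or_false] at h
    have hw : w < 11 := by omega
    refine ⟨⟨w, hw⟩, ?_, rfl⟩
    intro h0
    have := congrArg Fin.val h0
    simp at this
    omega
  · rintro ⟨v, hv, rfl⟩
    have := v.2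
    have h0 : (v : ℕ) ≠ 0 := fun h => hv (Fin.ext h)
    simp only [outer, List.mem_cons, List.not_mem_nil, or_false]
    omega

section main

variable [Fintype ι]

/-- the sum of the local potentials -/
noncomputable def tot (C : Finset (ι × Fin 11)) : ℕ := ∑ i, tau (mask C i)

theorem tot_insert (C : Finset (ι × Fin 11)) (i : ι) (u : Fin 11) :
    tot (insert (i, u) C) + tau (mask C i) = tot C + tau (put (mask C i) u) := by
  rw [tot, tot, ← Finset.add_sum_erase _ _ (Finset.mem_univ i),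
    ← Finset.add_sum_erase _ (fun j => tau (mask C j)) (Finset.mem_univ i), mask_insert_self]
  have : ∑ x ∈ Finset.univ.erase i, tau (mask (insert (i, u) C) x) =
      ∑ x ∈ Finset.univ.erase i, tau (mask C x) := by
    refine Finset.sum_congr rfl fun j hj => ?_
    rw [mask_insert_ne _ (Finset.ne_of_mem_erase hj)]
  rw [this]
  omega

theorem unpl_mask (C : Finset (ι × Fin 11)) (i : ι) :
    unpl (mask C i) = ∑ u : Fin 11, if (i, u) ∈ C then 0 else 1 := by
  have P := pl_mask C i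
  have h : ∀ u : Fin 11, (if (i, u) ∈ C then 0 else 1) = (!(pl (mask C i) u)).toNat := by
    intro u
    rw [P]
    by_cases hu : (i, u) ∈ C <;> simp [hu]
  simp only [h]
  simp only [Fin.sum_univ_succ, Fin.sum_univ_zero, unpl]
  simp only [Fin.val_zero, Fin.val_succ, zero_add, add_zero]
  norm_num
  ring

theorem card_le (C : Finset (ι × Fin 11)) :
    Fintype.card (ι × Fin 11) = C.card + ∑ i, unpl (mask C i) := by
  simp only [unpl_mask]
  rw [← Fintype.sum_prod_type' (fun i u => if (i, u) ∈ C then 0 else 1)]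
  have h1 : C.card = ∑ p : ι × Fin 11, if p ∈ C then 1 else 0 := by simp
  rw [h1, ← Finset.sum_add_distrib]
  have h2 : ∀ p : ι × Fin 11, ((if p ∈ C then 1 else 0) + (if (p.1, p.2) ∈ C then 0 else 1)) = 1 := by
    intro p
    by_cases hp : p ∈ C <;> simp [hp]
  simp only [h2]
  simp [Fintype.card_prod]

theorem end_bound (C : Finset (ι × Fin 11)) (h : legal (attach H) C = ∅) :
    2 * Fintype.card (ι × Fin 11) ≤ 2 * C.card + tot C := by
  rw [card_le C]
  have h1 : ∀ i, 2 * unpl (mask C i) ≤ tau (mask C i) := by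
    intro i
    apply ok_end _ (mask_lt C i)
    rintro ⟨w, hw, hl⟩
    obtain ⟨v, hv, rfl⟩ := (mem_outer_iff w).mp hw
    have h2 := (legal_iff_loc (H := H) C i v hv).mpr hl
    have h3 : (i, v) ∈ legal (attach H) C := mem_legal.mpr h2
    rw [h] at h3
    exact absurd h3 (Finset.notMem_empty _)
  have h2 : ∑ i, 2 * unpl (mask C i) ≤ tot C := Finset.sum_le_sum fun i _ => h1 i
  rw [← Finset.mul_sum] at h2
  omega

theorem strategy (C : Finset (ι × Fin 11)) (v : ι × Fin 11) (hv : v ∈ legal (attach H) C) :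
    (legal (attach H) (insert v C) = ∅ ∧
        Fintype.card (ι × Fin 11) ≤ (insert v C).card + (tot C + 1) / 2) ∨
      ∃ w ∈ legal (attach H) (insert v C), (tot (insert w (insert v C)) + 1) / 2 ≤ (tot C + 1) / 2 := by
  obtain ⟨i, v⟩ := v
  have hv' := mem_legal.mp hv
  have hvC : (i, v) ∉ C := hv'.1
  have hdom := ok_dom (mask C i) v (mask_lt C i) (by
    by_cases h0 : v = 0
    · right
      subst h0
      refine ⟨rfl, ?_⟩
      have := pl_mask C i 0
      simpa [hvC] using this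
    · left
      exact ⟨(mem_outer_iff _).mpr ⟨v, h0, rfl⟩, (legal_iff_loc C i v h0).mp hv'⟩)
  have hT := tot_insert C i v
  rcases hdom with ⟨w, hw, hl, hle⟩ | hle
  · right
    obtain ⟨u, hu, rfl⟩ := (mem_outer_iff w).mp hw
    rw [← mask_insert_self] at hl hle
    refine ⟨(i, u), mem_legal.mpr ((legal_iff_loc _ i u hu).mpr hl), ?_⟩
    have hT2 := tot_insert (insert (i, v) C) i u
    rw [← mask_insert_self] at hT
    omega
  · by_cases hend : legal (attach H) (insert (i, v) C) = ∅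
    · left
      refine ⟨hend, ?_⟩
      have := end_bound _ hend
      omega
    · right
      have hne := Finset.nonempty_iff_ne_empty.mpr hend
      by_cases hodd : tot (insert (i, v) C) % 2 = 1
      · have : ∃ j, tau (mask (insert (i, v) C) j) % 2 = 1 := by
          by_contra hcon
          push Not at hcon
          have h2 : 2 ∣ tot (insert (i, v) C) := by
            apply Finset.dvd_sum
            intro j _
            have := hcon j
            omega
          omega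
        obtain ⟨j, hj⟩ := this
        obtain ⟨w, hw, hl, hle2⟩ := ok_odd _ (mask_lt _ j) hj
        obtain ⟨u, hu, rfl⟩ := (mem_outer_iff w).mp hw
        refine ⟨(j, u), mem_legal.mpr ((legal_iff_loc _ j u hu).mpr hl), ?_⟩
        have hT2 := tot_insert (insert (i, v) C) j u
        omega
      · obtain ⟨j, u, hu, hlu⟩ := exists_outer_legal hne
        obtain ⟨w, hw, hl, hle2⟩ := ok_neutral _ (mask_lt (insert (i, v) C) j)
          ⟨u, (mem_outer_iff _).mpr ⟨u, hu, rfl⟩, (legal_iff_loc _ j u hu).mp hlu⟩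
        obtain ⟨u', hu', rfl⟩ := (mem_outer_iff w).mp hw
        refine ⟨(j, u'), mem_legal.mpr ((legal_iff_loc _ j u' hu').mpr hl), ?_⟩
        have hT2 := tot_insert (insert (i, v) C) j u'
        omega

theorem gammaL_attach : 11 * Fintype.card ι ≤ (3 * Fintype.card ι + 1) / 2 + gammaL (attach H) := by
  have h := gammaL_ge (G := attach H) (fun C => (tot C + 1) / 2) strategy (fun C hC => by
    have := end_bound C hC
    omega)
  have h2 : tot (∅ : Finset (ι × Fin 11)) = 3 * Fintype.card ι := by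
    have h3 : ∀ i, mask (∅ : Finset (ι × Fin 11)) i = 0 := by
      intro i
      apply Nat.eq_of_testBit_eq
      intro k
      by_cases hk : k < 11
      · have := pl_mask (∅ : Finset (ι × Fin 11)) i ⟨k, hk⟩
        simpa [pl] using this
      · rw [mask, Nat.testBit_ofBits_ge _ _ (by omega)]
        simp
    simp only [tot, h3, tau_zero]
    simp [mul_comm]
  simp only [h2, Fintype.card_prod, Fintype.card_fin] at h
  omega

end main

end Pool.Agent.R193.LG
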