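import Mathlib

/-!
# The L-domination game
-/

namespace Pool.Agent.R193.LG

section game

variable {V : Type} [Fintype V] [DecidableEq V] (G : SimpleGraph V)

/-- the vertices which have a neighbour among the vertices `C` chosen so far -/
def dominated (C : Finset V) : Set V := {w | ∃ u ∈ C, G.Adj u w}

/-- `v` is a legal next choice, if the vertices of `C` have been chosen: `v` has not been chosen
and the closed neighbourhood of `v` contains a vertex without a chosen neighbour -/
def IsLegal (C : Finset V) (v : V) : Prop :=
  v ∉ C ∧ ∃ w, (w = v ∨ G.Adj v w) ∧ w ∉ dominated G C

open Classical in
/-- the set of legal choices -/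
noncomputable def legal (C : Finset V) : Finset V := Finset.univ.filter fun v => IsLegal G C v

/-- the number of further moves, if the vertices of `C` have been chosen and both players play
optimally; at most `k` further moves are counted (`k` at least the number of vertices means no
restriction). It is the turn of Dominator (who minimises) if the Boolean is `true`, and the turn of
Staller (who maximises) if it is `false` -/
noncomputable def movesLeft : ℕ → Bool → Finset V → ℕ
  | 0, _, _ => 0
  | k + 1, true, C =>
      if h : (legal G C).Nonempty then
        1 + (legal G C).inf' h fun v => movesLeft k false (insert v C) else 0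
  | k + 1, false, C =>
      if h : (legal G C).Nonempty then
        1 + (legal G C).sup' h fun v => movesLeft k true (insert v C) else 0

/-- the L-domination number of the game in which Dominator moves first -/
noncomputable def gammaL : ℕ := movesLeft G (Fintype.card V) true ∅

end game

section strategy

variable {V : Type} [Fintype V] [DecidableEq V] {G : SimpleGraph V}

theorem mem_legal {C : Finset V} {v : V} : v ∈ legal G C ↔ IsLegal G C v := by
  simp [legal]

/-- if Staller can keep a potential from growing, the final number of unplayed vertices is at most
the potential -/
theorem movesLeft_ge (ψ : Finset V → ℕ)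
    (h1 : ∀ C, ∀ v ∈ legal G C,
      (legal G (insert v C) = ∅ ∧ Fintype.card V ≤ (insert v C).card + ψ C) ∨
        ∃ w ∈ legal G (insert v C), ψ (insert w (insert v C)) ≤ ψ C)
    (h0 : ∀ C, legal G C = ∅ → Fintype.card V ≤ C.card + ψ C) :
    ∀ k, ∀ C : Finset V, Fintype.card V ≤ C.card + k →
      Fintype.card V ≤ C.card + ψ C + movesLeft G k true C := by
  intro k
  induction k using Nat.strong_induction_on with
  | _ k ih =>
    intro C hC
    cases k with
    | zero => omega
    | succ k =>
      by_cases hne : (legal G C).Nonempty
      · rw [movesLeft, dif_pos hne]
        obtain ⟨v, hv, hmin⟩ := Finset.exists_mem_eq_inf' hne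
          (fun v => movesLeft G k false (insert v C))
        rw [hmin]
        have hvC : v ∉ C := (mem_legal.mp hv).1
        have hcard : (insert v C).card = C.card + 1 := Finset.card_insert_of_notMem hvC
        rcases h1 C v hv with ⟨_, h3⟩ | ⟨w, hw, h3⟩
        · omega
        · have hwC : w ∉ insert v C := (mem_legal.mp hw).1
          have hcard2 : (insert w (insert v C)).card = C.card + 2 := by
            rw [Finset.card_insert_of_notMem hwC, hcard]
          cases k with
          | zero =>
            have := Finset.card_le_univ (insert w (insert v C))
            omega
          | succ k =>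
            have hne2 : (legal G (insert v C)).Nonempty := ⟨w, hw⟩
            rw [movesLeft, dif_pos hne2]
            have h4 : movesLeft G k true (insert w (insert v C)) ≤
                (legal G (insert v C)).sup' hne2 fun w => movesLeft G k true (insert w (insert v C)) :=
              Finset.le_sup' (fun w => movesLeft G k true (insert w (insert v C))) hw
            have h5 := ih k (by omega) (insert w (insert v C)) (by omega)
            omega
      · have := h0 C (Finset.not_nonempty_iff_eq_empty.mp hne)
        omega

theorem gammaL_ge (ψ : Finset V → ℕ)
    (h1 : ∀ C, ∀ v ∈ legal G C,
      (legal G (insert v C) = ∅ ∧ Fintype.card V ≤ (insert v C).card + ψ C) ∨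
        ∃ w ∈ legal G (insert v C), ψ (insert w (insert v C)) ≤ ψ C)
    (h0 : ∀ C, legal G C = ∅ → Fintype.card V ≤ C.card + ψ C) :
    Fintype.card V ≤ ψ ∅ + gammaL G := by
  have := movesLeft_ge ψ h1 h0 (Fintype.card V) ∅ (by simp)
  simpa [gammaL] using this

end strategy

end Pool.Agent.R193.LG
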