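import Pool.Agent.R193.LG.Family

/-!
# Gluing gadgets to a tree gives a tree
-/

namespace Pool.Agent.R193.LG

variable {ι : Type} [DecidableEq ι] {H : SimpleGraph ι}

/-- parent of a vertex of the gadget -/
def par : Fin 11 → Fin 11 := ![0, 0, 1, 0, 3, 0, 5, 0, 7, 7, 9]

theorem par_adj : ∀ u, u ≠ 0 → gadget.Adj u (par u) := by decide

theorem par_lt : ∀ u, u ≠ 0 → par u < u := by decide

theorem reach_root (i : ι) (u : Fin 11) : (attach H).Reachable (i, u) (i, 0) := by
  induction u using WellFoundedLT.induction with
  | _ u ih =>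
    by_cases h0 : u = 0
    · subst h0
      exact SimpleGraph.Reachable.refl _
    · exact (SimpleGraph.Adj.reachable (adj_in (par_adj u h0))).trans (ih _ (par_lt u h0))

/-- the centres form a copy of `H` -/
def centre (H : SimpleGraph ι) : H →g attach H where
  toFun i := (i, 0)
  map_rel' h := Or.inr ⟨h, rfl, rfl⟩

theorem attach_connected (hH : H.Connected) : (attach H).Connected := by
  haveI := hH.nonempty
  haveI : Nonempty (ι × Fin 11) := inferInstance
  refine ⟨?_⟩
  rintro ⟨i, u⟩ ⟨j, v⟩
  have h : (attach H).Reachable (i, 0) (j, 0) := (hH.preconnected i j).map (centre H)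
  exact ((reach_root i u).trans h).trans (reach_root j v).symm

theorem no_isolated (p : ι × Fin 11) : ∃ q, (attach H).Adj p q :=
  ⟨(p.1, nb p.2), adj_in (nb_adj p.2).symm⟩

open Classical in
theorem degree_attach [Fintype ι] (i : ι) (u : Fin 11) :
    (attach H).degree (i, u) = gadget.degree u + if u = 0 then H.degree i else 0 := by
  have h1 := (attach H).degree_eq_sum_if_adj (R := ℕ) (i, u)
  have h2 := gadget.degree_eq_sum_if_adj (R := ℕ) u
  have h3 := H.degree_eq_sum_if_adj (R := ℕ) i
  simp only [Nat.cast_id] at h1 h2 h3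
  rw [h1, h2, h3, Fintype.sum_prod_type]
  have h4 : ∀ j v, (if (attach H).Adj (i, u) (j, v) then 1 else 0) =
      (if i = j then (if gadget.Adj u v then 1 else 0) else 0) +
        (if v = 0 then (if u = 0 then (if H.Adj i j then 1 else 0) else 0) else 0) := by
    intro j v
    by_cases hij : i = j
    · subst hij
      have : ¬ H.Adj i i := H.irrefl
      simp [attach, this]
    · simp only [attach, hij, false_and, false_or, if_false, zero_add]
      by_cases hv : v = 0 <;> by_cases hu : u = 0 <;> simp [hv, hu]
  simp only [h4, Finset.sum_add_distrib, Finset.sum_ite_eq', Finset.sum_ite_eq, Finset.mem_univ,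
    if_true]
  congr 1
  · rw [Finset.sum_comm]
    simp
  · by_cases hu : u = 0 <;> simp [hu]

open Classical in
theorem attach_isTree [Fintype ι] (hH : H.IsTree) : (attach H).IsTree := by
  rw [SimpleGraph.isTree_iff_connected_and_card]
  refine ⟨attach_connected hH.connected, ?_⟩
  have h1 := (attach H).sum_degrees_eq_twice_card_edges
  have h2 := H.sum_degrees_eq_twice_card_edges
  have h3 := (SimpleGraph.isTree_iff_connected_and_card.mp hH).2
  rw [Fintype.sum_prod_type] at h1
  simp only [degree_attach, Finset.sum_add_distrib, Finset.sum_ite_eq', Finset.sum_ite_eq,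
    Finset.mem_univ, if_true] at h1
  have h4 : ∑ u : Fin 11, gadget.degree u = 20 := by
    have : ∑ u : Fin 11, (∑ v : Fin 11, if gadget.Adj u v then 1 else 0) = 20 := by decide
    rw [← this]
    refine Finset.sum_congr rfl fun u _ => ?_
    have := gadget.degree_eq_sum_if_adj (R := ℕ) u
    simp only [Nat.cast_id] at this
    rw [this]
  rw [h4] at h1
  simp only [Finset.sum_const, Finset.card_univ, smul_eq_mul] at h1
  rw [Nat.card_eq_fintype_card, Nat.card_eq_fintype_card] at h3 ⊢
  rw [← SimpleGraph.edgeFinset_card] at h3 ⊢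
  rw [Fintype.card_prod, Fintype.card_fin]
  omega

end Pool.Agent.R193.LG
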